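import Pool.Agent.Lib.P0036f5v2.Upper

/-!
# The block program with an arbitrary family of reachability trees

The input is cut into blocks of length `N`, the number of states.  The bits written in a block
encode the set of states reachable at the beginning of that block.  The next bit is computed from
the previous block by means of a given family of decision trees for reachability.
-/

set_option autoImplicit false

namespace Pool.Agent.P0036f5r

open Classical Pool.Agent.P0036f5v2

variable {A S : Type} (𝒩 : NFA A S) (N : ℕ) (st : ℕ → S)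
  (rT : S → S → ℕ → ℕ → DT (Option (A × Bool)))

/-- from `st x` to some accepting state, along the last `r` letters -/
noncomputable def accR (x r : ℕ) : DT (Option (A × Bool)) :=
  .orN (fun y => if st y ∈ 𝒩.accept then rT (st x) (st y) r r else .ret false) N

/-- the block program -/
noncomputable def blockR : Prog A where
  nxt := fun r => if r + 1 < 2 * N then r + 1 else N
  b0 := decide (st 0 ∈ 𝒩.start)
  bit := fun r =>
    if r < N then .ret (decide (st r ∈ 𝒩.start))
    else .orN (fun x => (askbit (r - x)).and (rT (st x) (st (r - N)) r N)) N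
  acc := fun r =>
    if r < N then
      .orN (fun x => if st x ∈ 𝒩.start then accR 𝒩 N st rT x r else .ret false) N
    else .orN (fun x => (askbit (r - x)).and (accR 𝒩 N st rT x r)) N

/-- the phase after `i` letters -/
theorem ph_blockR (hN : 0 < N) (i : ℕ) :
    (blockR 𝒩 N st rT).ph i = if i < N then i else N + i % N := by
  induction i with
  | zero => simp [Prog.ph, hN]
  | succ i ih =>
    rw [Prog.ph, ih]
    simp only [blockR]
    have hm : i % N < N := Nat.mod_lt _ hN
    have hmod1 : i % N + 1 = N → (i + 1) % N = 0 := by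
      intro h
      have h2 := Nat.div_add_mod i N
      have h3 : i + 1 = N * (i / N + 1) := by
        rw [Nat.mul_add, Nat.mul_one]; omega
      rw [h3, Nat.mul_mod_right]
    have hmod2 : i % N + 1 ≠ N → (i + 1) % N = i % N + 1 := by
      intro h
      have h2 := Nat.div_add_mod i N
      have h3 : i + 1 = N * (i / N) + (i % N + 1) := by omega
      rw [h3, Nat.mul_add_mod, Nat.mod_eq_of_lt (by omega)]
    by_cases h1 : i < N
    · rw [if_pos h1]
      by_cases h2 : i + 1 < N
      · rw [if_pos h2, if_pos (by omega)]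
      · rw [if_neg h2]
        have hi : i + 1 = N := by omega
        by_cases h3 : i + 1 < 2 * N
        · rw [if_pos h3, hi, Nat.mod_self]; rfl
        · omega
    · rw [if_neg h1]
      have h2 : ¬ (i + 1 < N) := by omega
      rw [if_neg h2]
      by_cases h3 : i % N + 1 = N
      · rw [hmod1 h3, if_neg (by omega)]; rfl
      · rw [hmod2 h3, if_pos (by omega)]; omega

theorem eval_accR
    (heval : ∀ (v : ℕ → Option (A × Bool)) (s t : S) (D L : ℕ) (u : List A), Reads v D L u →
      L ≤ 2 * N → ((rT s t D L).eval v = true ↔ t ∈ 𝒩.evalFrom {s} u))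
    (hst : ∀ s, ∃ x < N, st x = s) (v : ℕ → Option (A × Bool))
    (x r : ℕ) (u : List A) (hR : Reads v r r u) (hr : r ≤ 2 * N) :
    (accR 𝒩 N st rT x r).eval v = true ↔ ∃ t ∈ 𝒩.accept, t ∈ 𝒩.evalFrom {st x} u := by
  rw [accR, DT.eval_orN]
  constructor
  · rintro ⟨y, hy, h⟩
    split_ifs at h with ha
    · exact ⟨st y, ha, (heval v _ _ r r u hR hr).1 h⟩
    · simp [DT.eval] at h
  · rintro ⟨t, ht, h⟩
    obtain ⟨y, hy, rfl⟩ := hst t
    refine ⟨y, hy, ?_⟩
    rw [if_pos ht]
    exact (heval v _ _ r r u hR hr).2 h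

theorem within_accR (hwithin : ∀ (s t : S) (D L : ℕ), L ≤ D → (rT s t D L).Within D)
    (x r : ℕ) : (accR 𝒩 N st rT x r).Within r := by
  refine DT.within_orN _ _ fun y _ => ?_
  split_ifs
  · exact hwithin _ _ r r le_rfl
  · trivial

/-- The machine of the block program recognises the language of the automaton. -/
theorem blockR_lang
    (heval : ∀ (v : ℕ → Option (A × Bool)) (s t : S) (D L : ℕ) (u : List A), Reads v D L u →
      L ≤ 2 * N → ((rT s t D L).eval v = true ↔ t ∈ 𝒩.evalFrom {s} u))
    (hwithin : ∀ (s t : S) (D L : ℕ), L ≤ D → (rT s t D L).Within D)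
    (cv : Bool) (hN : 0 < N) (hst : ∀ s, ∃ x < N, st x = s) :
    (blockR 𝒩 N st rT).mach.lang cv = 𝒩.accepts := by
  ext w
  -- reachable states at block starts
  have hblock : ∀ (i x : ℕ), i ≤ w.length → N ≤ i → x < N →
      (askbit (N + i % N - x)).eval (Prog.view w (bitOf 𝒩 N st w) i) =
        decide (st x ∈ 𝒩.evalFrom 𝒩.start (w.take (N * (i / N - 1)))) := by
    intro i x hi hNi hx
    obtain ⟨a1, a2, a3⟩ := block_arith N hN i hNi
    rw [eval_askbit_view _ _ _ _ (by omega)]
    have e1 : i - (N + i % N - x) = x + N * (i / N - 1) := by omega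
    rw [e1, bitOf, Nat.add_mul_mod_self_left, Nat.mod_eq_of_lt hx,
      Nat.add_mul_div_left _ _ hN, Nat.div_eq_of_lt hx, Nat.zero_add]
  rw [Prog.mem_lang _ cv w (bitOf 𝒩 N st w)]
  · -- acceptance
    rw [ph_blockR 𝒩 N st rT hN, NFA.mem_accepts]
    by_cases hlt : w.length < N
    · rw [if_pos hlt]
      simp only [blockR]
      rw [if_pos hlt, DT.eval_orN]
      have hR : Reads (Prog.view w (bitOf 𝒩 N st w) w.length) w.length w.length w := by
        have := reads_view w (bitOf 𝒩 N st w) w.length w.length w.length le_rfl le_rfl le_rfl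
        simpa using this
      constructor
      · rintro ⟨x, hx, h⟩
        split_ifs at h with hs
        · obtain ⟨t, ht, h'⟩ := (eval_accR 𝒩 N st rT heval hst _ x _ w hR (by omega)).1 h
          exact ⟨t, ht, NFA.mem_evalFrom_iff_exists.2 ⟨st x, hs, h'⟩⟩
        · simp [DT.eval] at h
      · rintro ⟨t, ht, h⟩
        obtain ⟨s, hs, h'⟩ := NFA.mem_evalFrom_iff_exists.1 h
        obtain ⟨x, hx, rfl⟩ := hst s
        refine ⟨x, hx, ?_⟩
        rw [if_pos hs]
        exact (eval_accR 𝒩 N st rT heval hst _ x _ w hR (by omega)).2 ⟨t, ht, h'⟩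
    · rw [if_neg hlt]
      push Not at hlt
      have hm := Nat.mod_lt w.length hN
      obtain ⟨a1, a2, a3⟩ := block_arith N hN w.length hlt
      have hr : ¬ (N + w.length % N < N) := by omega
      simp only [blockR]
      rw [if_neg hr, DT.eval_orN]
      have hR : Reads (Prog.view w (bitOf 𝒩 N st w) w.length) (N + w.length % N)
          (N + w.length % N) (w.drop (N * (w.length / N - 1))) := by
        have := reads_view w (bitOf 𝒩 N st w) w.length (N + w.length % N) (N + w.length % N)
          le_rfl a1 le_rfl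
        rw [a2] at this
        rwa [List.take_of_length_le (by simp; omega)] at this
      have hsplit : 𝒩.evalFrom 𝒩.start w =
          𝒩.evalFrom (𝒩.evalFrom 𝒩.start (w.take (N * (w.length / N - 1))))
            (w.drop (N * (w.length / N - 1))) := by
        rw [← NFA.evalFrom_append, List.take_append_drop]
      constructor
      · rintro ⟨x, hx, h⟩
        rw [DT.eval_and, Bool.and_eq_true, hblock _ _ le_rfl hlt hx, decide_eq_true_eq] at h
        obtain ⟨t, ht, h'⟩ := (eval_accR 𝒩 N st rT heval hst _ x _ _ hR (by omega)).1 h.2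
        refine ⟨t, ht, ?_⟩
        rw [hsplit]
        exact NFA.mem_evalFrom_iff_exists.2 ⟨st x, h.1, h'⟩
      · rintro ⟨t, ht, h⟩
        rw [hsplit] at h
        obtain ⟨s, hs, h'⟩ := NFA.mem_evalFrom_iff_exists.1 h
        obtain ⟨x, hx, rfl⟩ := hst s
        refine ⟨x, hx, ?_⟩
        rw [DT.eval_and, Bool.and_eq_true, hblock _ _ le_rfl hlt hx, decide_eq_true_eq]
        exact ⟨hs, (eval_accR 𝒩 N st rT heval hst _ x _ _ hR (by omega)).2 ⟨t, ht, h'⟩⟩
  · -- the initial bit
    simp [bitOf, blockR]
  · -- the bits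
    intro i hi
    rw [ph_blockR 𝒩 N st rT hN]
    by_cases hlt : i + 1 < N
    · rw [if_pos hlt]
      simp only [blockR]
      rw [if_pos hlt]
      refine ⟨trivial, ?_⟩
      rw [bitOf, Nat.mod_eq_of_lt hlt, Nat.div_eq_of_lt hlt]
      simp [DT.eval]
    · rw [if_neg hlt]
      push Not at hlt
      have hm := Nat.mod_lt (i + 1) hN
      obtain ⟨a1, a2, a3⟩ := block_arith N hN (i + 1) hlt
      have hr : ¬ (N + (i + 1) % N < N) := by omega
      simp only [blockR]
      rw [if_neg hr]
      constructor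
      · refine DT.within_orN _ _ fun x hx => DT.within_and (within_askbit (by omega) (by omega)) ?_
        exact (hwithin _ _ _ _ (by omega)).mono a1
      · rw [Bool.eq_iff_iff, DT.eval_orN, bitOf, decide_eq_true_eq]
        have hR := reads_view w (bitOf 𝒩 N st w) (i + 1) (N + (i + 1) % N) N hi a1 (by omega)
        rw [a2] at hR
        have hsplit : 𝒩.evalFrom 𝒩.start (w.take (N * ((i + 1) / N))) =
            𝒩.evalFrom (𝒩.evalFrom 𝒩.start (w.take (N * ((i + 1) / N - 1))))
              ((w.drop (N * ((i + 1) / N - 1))).take N) := by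
          rw [← NFA.evalFrom_append, ← a3, List.take_add]
        have hsub : N + (i + 1) % N - N = (i + 1) % N := by omega
        rw [hsplit, hsub]
        constructor
        · rintro ⟨x, hx, h⟩
          rw [DT.eval_and, Bool.and_eq_true, hblock _ _ hi hlt hx, decide_eq_true_eq,
            heval _ _ _ _ _ _ hR (by omega)] at h
          exact NFA.mem_evalFrom_iff_exists.2 ⟨st x, h.1, h.2⟩
        · intro h
          obtain ⟨s, hs, h'⟩ := NFA.mem_evalFrom_iff_exists.1 h
          obtain ⟨x, hx, rfl⟩ := hst s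
          refine ⟨x, hx, ?_⟩
          rw [DT.eval_and, Bool.and_eq_true, hblock _ _ hi hlt hx, decide_eq_true_eq,
            heval _ _ _ _ _ _ hR (by omega)]
          exact ⟨hs, h'⟩
  · -- the acceptance tree looks only at visited cells
    rw [ph_blockR 𝒩 N st rT hN]
    by_cases hlt : w.length < N
    · rw [if_pos hlt]
      simp only [blockR]
      rw [if_pos hlt]
      refine DT.within_orN _ _ fun x _ => ?_
      split_ifs
      · exact within_accR 𝒩 N st rT hwithin x _
      · trivial
    · rw [if_neg hlt]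
      push Not at hlt
      have hm := Nat.mod_lt w.length hN
      obtain ⟨a1, a2, a3⟩ := block_arith N hN w.length hlt
      have hr : ¬ (N + w.length % N < N) := by omega
      simp only [blockR]
      rw [if_neg hr]
      refine DT.within_orN _ _ fun x hx => DT.within_and (within_askbit (by omega) (by omega)) ?_
      exact (within_accR 𝒩 N st rT hwithin x _).mono a1


/-! ### The finite set of states -/

/-- all trees that can occur -/
def treesR : Set (DT (Option (A × Bool))) :=
  {.ret true, .ret false} ∪ ⋃ r ∈ Finset.range (2 * N),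
    (((blockR 𝒩 N st rT).bit r).asks ∪ ((blockR 𝒩 N st rT).acc r).asks)

theorem ret_mem_trees (b : Bool) : DT.ret b ∈ treesR 𝒩 N st rT := by
  cases b
  · exact Or.inl (Or.inr rfl)
  · exact Or.inl (Or.inl rfl)

theorem bit_mem_trees (r : ℕ) (hr : r < 2 * N) :
    (blockR 𝒩 N st rT).bit r ∈ treesR 𝒩 N st rT := by
  rcases DT.self_mem_asks ((blockR 𝒩 N st rT).bit r) with h | ⟨b, hb⟩
  · exact Or.inr (Set.mem_biUnion (Finset.mem_coe.2 (Finset.mem_range.2 hr)) (Or.inl h))
  · rw [hb]; exact ret_mem_trees 𝒩 N st rT b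

theorem acc_mem_trees (r : ℕ) (hr : r < 2 * N) :
    (blockR 𝒩 N st rT).acc r ∈ treesR 𝒩 N st rT := by
  rcases DT.self_mem_asks ((blockR 𝒩 N st rT).acc r) with h | ⟨b, hb⟩
  · exact Or.inr (Set.mem_biUnion (Finset.mem_coe.2 (Finset.mem_range.2 hr)) (Or.inr h))
  · rw [hb]; exact ret_mem_trees 𝒩 N st rT b

theorem child_mem_trees {d : ℕ} {f : Option (A × Bool) → DT (Option (A × Bool))}
    (h : DT.ask d f ∈ treesR 𝒩 N st rT) (x : Option (A × Bool)) : f x ∈ treesR 𝒩 N st rT := by
  rcases h with h | h
  · rcases h with h | h <;> simp at h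
  · obtain ⟨r, hr, h⟩ := Set.mem_iUnion₂.1 h
    rcases h with h | h
    · rcases DT.asks_child h x with h' | ⟨b, hb⟩
      · exact Or.inr (Set.mem_biUnion hr (Or.inl h'))
      · rw [hb]; exact ret_mem_trees 𝒩 N st rT b
    · rcases DT.asks_child h x with h' | ⟨b, hb⟩
      · exact Or.inr (Set.mem_biUnion hr (Or.inr h'))
      · rw [hb]; exact ret_mem_trees 𝒩 N st rT b

theorem within_bit (hwithin : ∀ (s t : S) (D L : ℕ), L ≤ D → (rT s t D L).Within D)
    (r : ℕ) : ((blockR 𝒩 N st rT).bit r).Within r := by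
  simp only [blockR]
  split_ifs with h
  · trivial
  · refine DT.within_orN _ _ fun x hx => DT.within_and (within_askbit (by omega) (by omega)) ?_
    exact hwithin _ _ _ _ (by omega)

theorem within_acc (hwithin : ∀ (s t : S) (D L : ℕ), L ≤ D → (rT s t D L).Within D)
    (r : ℕ) : ((blockR 𝒩 N st rT).acc r).Within r := by
  simp only [blockR]
  split_ifs with h
  · refine DT.within_orN _ _ fun x _ => ?_
    split_ifs
    · exact within_accR 𝒩 N st rT hwithin x _
    · trivial
  · refine DT.within_orN _ _ fun x hx => DT.within_and (within_askbit (by omega) (by omega)) ?_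
    exact within_accR 𝒩 N st rT hwithin x _

theorem dist_of_mem_trees (hwithin : ∀ (s t : S) (D L : ℕ), L ≤ D → (rT s t D L).Within D)
    {d : ℕ} {f : Option (A × Bool) → DT (Option (A × Bool))}
    (h : DT.ask d f ∈ treesR 𝒩 N st rT) : d + 1 ≤ 2 * N := by
  rcases h with h | h
  · rcases h with h | h <;> simp at h
  · obtain ⟨r, hr, h⟩ := Set.mem_iUnion₂.1 h
    have hr' : r < 2 * N := Finset.mem_range.1 (Finset.mem_coe.1 hr)
    rcases h with h | h
    · have := DT.le_of_mem_asks (within_bit 𝒩 N st rT hwithin r) h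
      omega
    · have := DT.le_of_mem_asks (within_acc 𝒩 N st rT hwithin r) h
      omega

theorem nd_bit_le [Finite A] (R : ℕ) (hnd : ∀ (s t : S) (D L : ℕ), (rT s t D L).nd ≤ R)
    (r : ℕ) :
    ((blockR 𝒩 N st rT).bit r).nd ≤ N * (1 + R) := by
  simp only [blockR]
  split_ifs with h
  · simp [DT.nd_ret]
  · refine DT.nd_orN_le _ N _ fun x _ => (DT.nd_and_le _ _).trans ?_
    exact Nat.add_le_add (nd_askbit_le _) (hnd _ _ _ _)

theorem nd_accR_le [Finite A] (R : ℕ) (hnd : ∀ (s t : S) (D L : ℕ), (rT s t D L).nd ≤ R)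
    (x r : ℕ) : (accR 𝒩 N st rT x r).nd ≤ N * R := by
  refine DT.nd_orN_le _ N _ fun y _ => ?_
  split_ifs
  · exact hnd _ _ _ _
  · simp [DT.nd_ret]

theorem nd_acc_le [Finite A] (R : ℕ) (hnd : ∀ (s t : S) (D L : ℕ), (rT s t D L).nd ≤ R)
    (r : ℕ) :
    ((blockR 𝒩 N st rT).acc r).nd ≤ N * (1 + N * R) := by
  simp only [blockR]
  split_ifs with h
  · refine DT.nd_orN_le _ N _ fun x _ => ?_
    split_ifs
    · exact (nd_accR_le 𝒩 N st rT R hnd x r).trans (by omega)
    · simp [DT.nd_ret]
  · refine DT.nd_orN_le _ N _ fun x _ => (DT.nd_and_le _ _).trans ?_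
    exact Nat.add_le_add (nd_askbit_le _) (nd_accR_le 𝒩 N st rT R hnd x r)

theorem trees_finite [Finite A] : (treesR 𝒩 N st rT).Finite := by
  refine Set.Finite.union (Set.toFinite _) ?_
  refine Set.Finite.biUnion (Finset.finite_toSet _) fun r _ => ?_
  exact (DT.asks_finite _).union (DT.asks_finite _)

theorem trees_ncard_le [Finite A] (R : ℕ) (hnd : ∀ (s t : S) (D L : ℕ), (rT s t D L).nd ≤ R) :
    (treesR 𝒩 N st rT).ncard ≤
      2 + 2 * N * (N * (1 + R) + N * (1 + N * R)) := by
  unfold treesR
  refine (Set.ncard_union_le _ _).trans (Nat.add_le_add ?_ ?_)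
  · exact (Set.ncard_insert_le _ _).trans (by simp)
  · have key : ∀ s : Finset ℕ, (⋃ r ∈ s, (((blockR 𝒩 N st rT).bit r).asks ∪
        ((blockR 𝒩 N st rT).acc r).asks)).ncard ≤
        s.card * (N * (1 + R) + N * (1 + N * R)) := by
      intro s
      induction s using Finset.induction_on with
      | empty => simp
      | insert a s ha ih =>
        rw [Finset.set_biUnion_insert, Finset.card_insert_of_notMem ha, Nat.add_mul, Nat.one_mul,
          Nat.add_comm]
        refine (Set.ncard_union_le _ _).trans (Nat.add_le_add ?_ ih)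
        refine (Set.ncard_union_le _ _).trans (Nat.add_le_add ?_ ?_)
        · exact nd_bit_le 𝒩 N st rT R hnd a
        · exact nd_acc_le 𝒩 N st rT R hnd a
    have := key (Finset.range (2 * N))
    rwa [Finset.card_range] at this

/-- the states that can occur -/
def statesR : Set (PSt A) :=
  (fun p : ℕ × Bool => PSt.ready p.1 p.2) '' (Set.Iio (2 * N) ×ˢ Set.univ) ∪
    (fun p : Bool × ℕ × DT (Option (A × Bool)) × ℕ => PSt.eval p.1 p.2.1 p.2.2.1 p.2.2.2) ''
      (Set.univ ×ˢ Set.Iio (2 * N) ×ˢ treesR 𝒩 N st rT ×ˢ Set.Iic (2 * N)) ∪ {.done}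

theorem mem_states_ready {r : ℕ} {b : Bool} :
    PSt.ready r b ∈ statesR 𝒩 N st rT ↔ r < 2 * N := by
  unfold statesR
  cases b <;> simp

theorem mem_states_eval {k : Bool} {r : ℕ} {t : DT (Option (A × Bool))} {h : ℕ} :
    PSt.eval k r t h ∈ statesR 𝒩 N st rT ↔ r < 2 * N ∧ t ∈ treesR 𝒩 N st rT ∧ h ≤ 2 * N := by
  unfold statesR
  simp

theorem mem_states_done : (PSt.done : PSt A) ∈ statesR 𝒩 N st rT := Or.inr rfl

theorem states_finite [Finite A] : (statesR 𝒩 N st rT).Finite := by
  unfold statesR
  refine ((Set.Finite.image _ ?_).union (Set.Finite.image _ ?_)).union (Set.finite_singleton _)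
  · exact (Set.finite_Iio _).prod Set.finite_univ
  · exact Set.finite_univ.prod ((Set.finite_Iio _).prod
      ((trees_finite 𝒩 N st rT).prod (Set.finite_Iic _)))

theorem states_ncard_le [Finite A] :
    (statesR 𝒩 N st rT).ncard ≤
      2 * N * 2 + 2 * (2 * N * ((treesR 𝒩 N st rT).ncard * (2 * N + 1))) + 1 := by
  unfold statesR
  refine (Set.ncard_union_le _ _).trans (Nat.add_le_add ?_ (by simp))
  refine (Set.ncard_union_le _ _).trans (Nat.add_le_add ?_ ?_)
  · refine (Set.ncard_image_le ((Set.finite_Iio _).prod Set.finite_univ)).trans ?_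
    rw [Set.ncard_prod]
    simp [Set.ncard_eq_toFinset_card']
  · refine (Set.ncard_image_le (Set.finite_univ.prod ((Set.finite_Iio _).prod
      ((trees_finite 𝒩 N st rT).prod (Set.finite_Iic _))))).trans ?_
    rw [Set.ncard_prod, Set.ncard_prod, Set.ncard_prod]
    simp [Set.ncard_eq_toFinset_card' (Set.Iio _), Set.ncard_eq_toFinset_card' (Set.Iic _)]

theorem states_closed (hwithin : ∀ (s t : S) (D L : ℕ), L ≤ D → (rT s t D L).Within D)
    (hN : 0 < N) : ∀ q ∈ statesR 𝒩 N st rT, ∀ s,
    ∀ x ∈ (blockR 𝒩 N st rT).mach.δ q s, x.1 ∈ statesR 𝒩 N st rT := by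
  intro q hq s x hx
  have hx' : (blockR 𝒩 N st rT).tr q s = some x := hx
  match q, s with
  | .ready r b, .inp a =>
    simp only [Prog.tr, Option.some.injEq] at hx'
    rw [mem_states_ready] at hq
    subst hx'
    have h1 : (blockR 𝒩 N st rT).nxt r < 2 * N := by
      simp only [blockR]
      split_ifs <;> omega
    exact (mem_states_eval 𝒩 N st rT).2 ⟨h1, bit_mem_trees 𝒩 N st rT _ h1, by omega⟩
  | .ready r b, .rend =>
    simp only [Prog.tr, Option.some.injEq] at hx'
    rw [mem_states_ready] at hq
    subst hx'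
    exact (mem_states_eval 𝒩 N st rT).2 ⟨hq, acc_mem_trees 𝒩 N st rT _ hq, by omega⟩
  | .ready _ _, .wrk _ => simp [Prog.tr] at hx'
  | .ready _ _, .lend => simp [Prog.tr] at hx'
  | .eval k r (.ret b) h, s =>
    rw [mem_states_eval] at hq
    simp only [Prog.tr] at hx'
    split_ifs at hx' with h1 h2 h3
    · simp only [Option.some.injEq] at hx'
      subst hx'
      exact mem_states_done 𝒩 N st rT
    · simp only [Option.some.injEq] at hx'
      subst hx'
      exact (mem_states_ready 𝒩 N st rT).2 hq.1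
    · simp only [Option.some.injEq] at hx'
      subst hx'
      exact (mem_states_eval 𝒩 N st rT).2 ⟨hq.1, hq.2.1, by have := hq.2.2; omega⟩
  | .eval k r (.ask d f) h, s =>
    rw [mem_states_eval] at hq
    have hd := dist_of_mem_trees 𝒩 N st rT hwithin hq.2.1
    simp only [Prog.tr] at hx'
    split_ifs at hx' with h1 h2
    · simp only [Option.some.injEq] at hx'
      subst hx'
      exact (mem_states_eval 𝒩 N st rT).2 ⟨hq.1, hq.2.1, by omega⟩
    · simp only [Option.some.injEq] at hx'
      subst hx'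
      exact (mem_states_eval 𝒩 N st rT).2 ⟨hq.1, hq.2.1, by have := hq.2.2; omega⟩
    · cases s with
      | wrk y =>
        simp only [Option.some.injEq] at hx'
        subst hx'
        exact (mem_states_eval 𝒩 N st rT).2
          ⟨hq.1, child_mem_trees 𝒩 N st rT hq.2.1 y, by omega⟩
      | inp _ => simp at hx'
      | lend => simp at hx'
      | rend => simp at hx'
  | .done, s =>
    simp only [Prog.tr, Option.some.injEq] at hx'
    subst hx'
    exact mem_states_done 𝒩 N st rT

/-- Determinisation of a one-way nondeterministic automaton with `N` states by means of decision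
trees `rT s t D L` for the question whether `t` is reachable from `s` along the letters at the
distances `D, D - 1, …, D - L + 1`. -/
theorem exists_det_of_tree {A S : Type} [Finite A] (𝒩 : NFA A S) (N : ℕ) (st : ℕ → S)
    (hN : 0 < N) (hst : ∀ s, ∃ x < N, st x = s)
    (rT : S → S → ℕ → ℕ → DT (Option (A × Bool))) (R : ℕ)
    (heval : ∀ (v : ℕ → Option (A × Bool)) (s t : S) (D L : ℕ) (u : List A), Reads v D L u →
      L ≤ 2 * N → ((rT s t D L).eval v = true ↔ t ∈ 𝒩.evalFrom {s} u))
    (hwithin : ∀ (s t : S) (D L : ℕ), L ≤ D → (rT s t D L).Within D)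
    (hnd : ∀ (s t : S) (D L : ℕ), (rT s t D L).nd ≤ R) :
    ∃ D : LA A, D.toMach.Det ∧ (∀ cv, D.toMach.lang cv = 𝒩.accepts) ∧
      D.toMach.size ≤
        (4 * N + 4 * N * (2 * N + 1) * (2 + 2 * N * (N * (1 + R) + N * (1 + N * R))) + 1) *
          (15 * Nat.card A + 17) + (4 * Nat.card A + 4) := by
  have hI : (blockR 𝒩 N st rT).mach.qI ∈ statesR 𝒩 N st rT :=
    (mem_states_ready 𝒩 N st rT).2 (by omega)
  let M' : Mach A := (blockR 𝒩 N st rT).mach.restrict (statesR 𝒩 N st rT) hI
  have fQ : Finite M'.Q := (states_finite 𝒩 N st rT).to_subtype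
  have fW : Finite M'.W := inferInstanceAs (Finite (Option (A × Bool)))
  have hdet : M'.Det := Mach.restrict_det _ _ hI (blockR 𝒩 N st rT).mach_det
  refine ⟨⟨M', fQ, fW⟩, hdet, ?_, ?_⟩
  · intro cv
    show M'.lang cv = _
    rw [← blockR_lang 𝒩 N st rT heval hwithin cv hN hst]
    exact Mach.restrict_lang _ cv _ hI (states_closed 𝒩 N st rT hwithin hN)
  · show M'.size ≤ _
    refine (M'.size_le_of_det hdet).trans ?_
    have hW : Nat.card M'.W = Nat.card A * 2 + 1 := by
      show Nat.card (Option (A × Bool)) = _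
      rw [Finite.card_option, Nat.card_prod]
      simp
    rw [card_sym A M'.W, hW]
    have hQ : Nat.card M'.Q = (statesR 𝒩 N st rT).ncard := rfl
    rw [hQ]
    set a := Nat.card A with ha_def
    set K := (statesR 𝒩 N st rT).ncard with hK
    have hKb : K ≤ 4 * N + 4 * N * (2 * N + 1) *
        (2 + 2 * N * (N * (1 + R) + N * (1 + N * R))) + 1 := by
      refine (states_ncard_le 𝒩 N st rT).trans ?_
      have hT := trees_ncard_le 𝒩 N st rT R hnd
      have h2 : 2 * (2 * N * ((treesR 𝒩 N st rT).ncard * (2 * N + 1))) ≤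
          4 * N * (2 * N + 1) * (2 + 2 * N * (N * (1 + R) + N * (1 + N * R))) := by
        calc 2 * (2 * N * ((treesR 𝒩 N st rT).ncard * (2 * N + 1)))
            = 4 * N * (2 * N + 1) * (treesR 𝒩 N st rT).ncard := by ring
          _ ≤ _ := Nat.mul_le_mul_left _ hT
      omega
    have h1 : 2 * K + a + (a + (a * 2 + 1) + 2) + 1 + 5 * (K * (a + (a * 2 + 1) + 2)) =
        K * (15 * a + 17) + (4 * a + 4) := by ring
    rw [h1]
    exact Nat.add_le_add_right (Nat.mul_le_mul_right _ hKb) _

end Pool.Agent.P0036f5r
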