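import Mathlib

/-!
# Branching programs for the reachability problem in digraphs

Digraphs on the vertices `0, …, V - 1` are given by functions `G : ℕ → ℕ → Bool` whose edges join
numbers less than `V`.
-/

set_option autoImplicit false

namespace Pool.Agent.P0036f5r

/-- A branching program reading digraphs: in the node `x` it asks whether there is an edge from
`(ask x).1` to `(ask x).2` and then moves to the node `next x true` or `next x false`.  There is a
first node, and some nodes are accepting.  (Cycles are allowed.) -/
structure BP where
  S : Type
  start : S
  acc : Set S
  ask : S → ℕ × ℕ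
  next : S → Bool → S

namespace BP

variable (P : BP)

/-- one step of the computation on the digraph `G` -/
def move (G : ℕ → ℕ → Bool) (x : P.S) : P.S := P.next x (G (P.ask x).1 (P.ask x).2)

/-- The computation on `G` visits an accepting node. -/
def Accepts (G : ℕ → ℕ → Bool) : Prop := ∃ j : ℕ, (P.move G)^[j] P.start ∈ P.acc

/-- For the digraphs on the vertices `0, …, V - 1` the program decides whether the vertex `1` is
reachable from the vertex `0`. -/
def Decides (V : ℕ) : Prop :=
  ∀ G : ℕ → ℕ → Bool, (∀ a b, G a b = true → a < V ∧ b < V) →
    (P.Accepts G ↔ Relation.ReflTransGen (fun a b => G a b = true) 0 1)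

end BP

/-- the numbers of nodes of the branching programs that decide reachability in the digraphs with
`V` vertices -/
def bpSizes (V : ℕ) : Set ℕ := {K | ∃ P : BP, Finite P.S ∧ P.Decides V ∧ Nat.card P.S = K}

end Pool.Agent.P0036f5r
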