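import Pool.Agent.Lib.P0036f5r.Unf

/-!
# The layered digraph of a nondeterministic automaton

The vertices are the pairs `(i, x)` with `i ≤ L` and `x` a state; the edge from `(i, x)` to
`(i + 1, y)` is present iff the automaton can move from `x` to `y` on the letter number `i`.
-/

set_option autoImplicit false

namespace Pool.Agent.P0036f5r

open Classical Pool.Agent.P0036f5v2

theorem swap_lt {a b c V : ℕ} (ha : a < V) (hb : b < V) (hc : c < V) :
    Equiv.swap a b c < V := by
  rw [Equiv.swap_apply_def]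
  split_ifs <;> assumption

/-- numbers for the vertices of the layered digraph -/
theorem exists_num {S : Type} [Finite S] (V L : ℕ) (s t : S) (hL : 1 ≤ L)
    (hV : (L + 1) * Nat.card S ≤ V) :
    ∃ G : ℕ → S → ℕ, (∀ i x, G i x < V) ∧
      (∀ i x j y, i ≤ L → j ≤ L → G i x = G j y → i = j ∧ x = y) ∧ G 0 s = 0 ∧ G L t = 1 := by
  have hcard : Nat.card (Fin (L + 1) × S) = (L + 1) * Nat.card S := by
    rw [Nat.card_prod, Nat.card_eq_fintype_card, Fintype.card_fin]
  have e : Fin (L + 1) × S ≃ Fin ((L + 1) * Nat.card S) :=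
    (Finite.equivFin (Fin (L + 1) × S)).trans (finCongr hcard)
  have hS : 1 ≤ Nat.card S := by
    have : Nonempty S := ⟨s⟩
    exact Nat.card_pos
  have hV2 : 2 ≤ V := by
    have h1 : (L + 1) * 1 ≤ (L + 1) * Nat.card S := Nat.mul_le_mul_left _ hS
    omega
  have hlt : ∀ p, (e p : ℕ) < V := fun p => lt_of_lt_of_le (e p).2 hV
  have hinj : ∀ p q, (e p : ℕ) = (e q : ℕ) → p = q := fun p q h => e.injective (Fin.ext h)
  have hf : ∀ i : ℕ, min i L < L + 1 := fun i => by omega
  let p₀ : Fin (L + 1) × S := (⟨min 0 L, hf 0⟩, s)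
  let p₁ : Fin (L + 1) × S := (⟨min L L, hf L⟩, t)
  have hne : p₀ ≠ p₁ := by
    intro h
    have h2 := congrArg (fun q : Fin (L + 1) × S => (q.1 : ℕ)) h
    simp only [p₀, p₁] at h2
    omega
  let σ : Equiv.Perm ℕ := Equiv.swap (e p₀ : ℕ) 0
  let τ : Equiv.Perm ℕ := Equiv.swap (σ (e p₁ : ℕ)) 1
  have hσ0 : σ (e p₀ : ℕ) = 0 := Equiv.swap_apply_left _ _
  have hσ1 : σ (e p₁ : ℕ) ≠ 0 := by
    intro h
    have h2 := σ.injective (h.trans hσ0.symm)
    exact hne (hinj _ _ h2).symm
  have hσlt : ∀ c, c < V → σ c < V := fun c hc => swap_lt (hlt _) (by omega) hc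
  have hτlt : ∀ c, c < V → τ c < V := fun c hc => swap_lt (hσlt _ (hlt _)) (by omega) hc
  have hτ0 : τ 0 = 0 := Equiv.swap_apply_of_ne_of_ne (Ne.symm hσ1) (by omega)
  have hτ1 : τ (σ (e p₁ : ℕ)) = 1 := Equiv.swap_apply_left _ _
  refine ⟨fun i x => τ (σ (e (⟨min i L, hf i⟩, x) : ℕ)), fun i x => hτlt _ (hσlt _ (hlt _)),
    ?_, ?_, ?_⟩
  · intro i x j y hi hj h
    have h2 := hinj _ _ (σ.injective (τ.injective h))
    have h3 := congrArg (fun q : Fin (L + 1) × S => (q.1 : ℕ)) h2
    have h4 := congrArg (fun q : Fin (L + 1) × S => q.2) h2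
    simp only at h3 h4
    exact ⟨by omega, h4⟩
  · change τ (σ (e p₀ : ℕ)) = 0
    rw [hσ0, hτ0]
  · exact hτ1

/-- The queries to the layered digraph on the vertices `(i, x)`, `i ≤ L`, `x` a state of the
automaton, with the edges `(i, x) → (i + 1, y)`, `y ∈ step x (letter at distance D - i)`; the
vertices `(0, s)` and `(L, t)` have the numbers `0` and `1`. -/
theorem exists_dec {A S : Type} [Finite S] (𝒩 : NFA A S) (V L D : ℕ) (s t : S)
    (hL : 1 ≤ L) (hV : (L + 1) * Nat.card S ≤ V) :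
    ∃ dec : ℕ → ℕ → Option (ℕ × (Option (A × Bool) → Bool)),
      (∀ a b d p, dec a b = some (d, p) → a < V ∧ b < V ∧ ∃ i < L, d = D - i) ∧
      ∀ (v : ℕ → Option (A × Bool)) (u : List A), Reads v D L u →
        (Relation.ReflTransGen (fun a b => Gof dec v a b = true) 0 1 ↔ t ∈ 𝒩.evalFrom {s} u) := by
  obtain ⟨G, hGV, hGinj, hG0, hG1⟩ := exists_num V L s t hL hV
  let pr : S → S → Option (A × Bool) → Bool := fun x y o =>
    decide (∃ a b, o = some (a, b) ∧ y ∈ 𝒩.step x a)
  let dec : ℕ → ℕ → Option (ℕ × (Option (A × Bool) → Bool)) := fun a b =>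
    if h : ∃ q : ℕ × S × S, q.1 < L ∧ a = G q.1 q.2.1 ∧ b = G (q.1 + 1) q.2.2 then
      some (D - h.choose.1, pr h.choose.2.1 h.choose.2.2) else none
  have hdec1 : ∀ a b d p, dec a b = some (d, p) →
      ∃ (i : ℕ) (x y : S), i < L ∧ a = G i x ∧ b = G (i + 1) y ∧ d = D - i ∧ p = pr x y := by
    intro a b d p h
    simp only [dec] at h
    split_ifs at h with hq
    obtain ⟨h1, h2, h3⟩ := hq.choose_spec
    simp only [Option.some.injEq, Prod.mk.injEq] at h
    exact ⟨hq.choose.1, hq.choose.2.1, hq.choose.2.2, h1, h2, h3, h.1.symm, h.2.symm⟩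
  have hdec2 : ∀ (i : ℕ) (x y : S), i < L → dec (G i x) (G (i + 1) y) = some (D - i, pr x y) := by
    intro i x y hi
    have hq : ∃ q : ℕ × S × S, q.1 < L ∧ G i x = G q.1 q.2.1 ∧ G (i + 1) y = G (q.1 + 1) q.2.2 :=
      ⟨(i, x, y), hi, rfl, rfl⟩
    simp only [dec]
    rw [dif_pos hq]
    obtain ⟨h1, h2, h3⟩ := hq.choose_spec
    obtain ⟨e1, e2⟩ := hGinj _ _ _ _ (by omega) (by omega) h2
    obtain ⟨e3, e4⟩ := hGinj _ _ _ _ (by omega) (by omega) h3
    rw [← e1, ← e2, ← e4]
  refine ⟨dec, ?_, ?_⟩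
  · intro a b d p h
    obtain ⟨i, x, y, hi, rfl, rfl, rfl, -⟩ := hdec1 a b d p h
    exact ⟨hGV _ _, hGV _ _, i, hi, rfl⟩
  · intro v u hR
    have hlen : u.length = L := hR.1
    have hedge1 : ∀ a b, Gof dec v a b = true → ∃ (i : ℕ) (x y : S) (hi : i < u.length),
        a = G i x ∧ b = G (i + 1) y ∧ y ∈ 𝒩.step x u[i] := by
      intro a b h
      unfold Gof at h
      rcases hd : dec a b with _ | ⟨d, p⟩
      · rw [hd] at h; simp at h
      · rw [hd] at h
        obtain ⟨i, x, y, hi, rfl, rfl, rfl, rfl⟩ := hdec1 _ _ _ _ hd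
        have hi' : i < u.length := by omega
        obtain ⟨c, hc⟩ := hR.2 i hi'
        refine ⟨i, x, y, hi', rfl, rfl, ?_⟩
        simp only [pr, hc, decide_eq_true_eq] at h
        obtain ⟨a', b', h1, h2⟩ := h
        simp only [Option.some.injEq, Prod.mk.injEq] at h1
        rw [h1.1]
        exact h2
    have hedge2 : ∀ (i : ℕ) (x y : S) (hi : i < u.length), y ∈ 𝒩.step x u[i] →
        Gof dec v (G i x) (G (i + 1) y) = true := by
      intro i x y hi h
      unfold Gof
      rw [hdec2 i x y (by omega)]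
      obtain ⟨c, hc⟩ := hR.2 i hi
      simp only [pr, decide_eq_true_eq]
      exact ⟨u[i], c, hc, h⟩
    have htake : ∀ (i : ℕ) (hi : i < u.length), 𝒩.evalFrom {s} (u.take (i + 1)) =
        𝒩.stepSet (𝒩.evalFrom {s} (u.take i)) u[i] := by
      intro i hi
      rw [List.take_succ_eq_append_getElem hi, NFA.evalFrom_append, NFA.evalFrom_singleton]
    constructor
    · intro h
      have key : ∀ c, Relation.ReflTransGen (fun a b => Gof dec v a b = true) 0 c →
          ∃ (i : ℕ) (x : S), i ≤ L ∧ c = G i x ∧ x ∈ 𝒩.evalFrom {s} (u.take i) := by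
        intro c hc
        induction hc with
        | refl => exact ⟨0, s, by omega, hG0.symm, by simp⟩
        | tail _ hbc ih =>
          obtain ⟨i, x, hi, hb, hx⟩ := ih
          obtain ⟨i', x', y, hi', hb', hc', hy⟩ := hedge1 _ _ hbc
          obtain ⟨e1, e2⟩ := hGinj _ _ _ _ hi (by omega) (hb.symm.trans hb')
          subst e1 e2
          refine ⟨i + 1, y, by omega, hc', ?_⟩
          rw [htake i hi', NFA.mem_stepSet]
          exact ⟨x, hx, hy⟩
      obtain ⟨i, x, hi, h1, hx⟩ := key 1 h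
      obtain ⟨e1, e2⟩ := hGinj _ _ _ _ hi le_rfl (h1.symm.trans hG1.symm)
      subst e2
      rw [e1, ← hlen, List.take_length] at hx
      exact hx
    · intro h
      have key : ∀ (i : ℕ) (x : S), i ≤ L → x ∈ 𝒩.evalFrom {s} (u.take i) →
          Relation.ReflTransGen (fun a b => Gof dec v a b = true) 0 (G i x) := by
        intro i
        induction i with
        | zero =>
          intro x _ hx
          simp only [List.take_zero, NFA.evalFrom_nil, Set.mem_singleton_iff] at hx
          rw [hx, hG0]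
        | succ i ih =>
          intro y hi hy
          have hi' : i < u.length := by omega
          rw [htake i hi', NFA.mem_stepSet] at hy
          obtain ⟨x, hx, hxy⟩ := hy
          exact (ih x (by omega) hx).tail (hedge2 i x y hi' hxy)
      rw [← hG1]
      apply key L t le_rfl
      rw [← hlen, List.take_length]
      exact h

/-- the reachability trees -/
theorem exists_rT {A S : Type} [Finite A] [Finite S] (𝒩 : NFA A S) (P : BP) [Finite P.S]
    (V N : ℕ) (hP : P.Decides V) (hN : Nat.card S ≤ N) (hV : (2 * N + 1) * N ≤ V) :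
    ∃ rT : S → S → ℕ → ℕ → DT (Option (A × Bool)),
      (∀ (v : ℕ → Option (A × Bool)) (s t : S) (D L : ℕ) (u : List A), Reads v D L u →
        L ≤ 2 * N → ((rT s t D L).eval v = true ↔ t ∈ 𝒩.evalFrom {s} u)) ∧
      (∀ (s t : S) (D L : ℕ), L ≤ D → (rT s t D L).Within D) ∧
      ∀ (s t : S) (D L : ℕ), (rT s t D L).nd ≤ Nat.card P.S * (Nat.card P.S + 1) := by
  have key : ∀ (s t : S) (D L : ℕ), ∃ T : DT (Option (A × Bool)),
      (∀ (v : ℕ → Option (A × Bool)) (u : List A), Reads v D L u →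
        L ≤ 2 * N → (T.eval v = true ↔ t ∈ 𝒩.evalFrom {s} u)) ∧
      (L ≤ D → T.Within D) ∧ T.nd ≤ Nat.card P.S * (Nat.card P.S + 1) := by
    intro s t D L
    rcases Nat.eq_zero_or_pos L with h0 | h0
    · subst h0
      refine ⟨.ret (decide (s = t)), ?_, fun _ => trivial, by rw [DT.nd_ret]; exact Nat.zero_le _⟩
      intro v u hR _
      have : u = [] := List.length_eq_zero_iff.1 hR.1
      subst this
      simp [DT.eval, eq_comm]
    · by_cases hL : L ≤ 2 * N
      · have hV' : (L + 1) * Nat.card S ≤ V :=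
          (Nat.mul_le_mul (by omega) hN).trans hV
        obtain ⟨dec, hd1, hd2⟩ := exists_dec 𝒩 V L D s t h0 hV'
        obtain ⟨T, hT1, hT2, hT3⟩ := exists_tree P dec
        refine ⟨T, ?_, ?_, hT3⟩
        · intro v u hR _
          rw [hT1 v, hP (Gof dec v), hd2 v u hR]
          intro a b hab
          unfold Gof at hab
          rcases hd : dec a b with _ | ⟨d, p⟩
          · rw [hd] at hab; simp at hab
          · obtain ⟨h1, h2, -⟩ := hd1 a b d p hd
            exact ⟨h1, h2⟩
        · intro hLD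
          apply hT2
          intro a b d p hd
          obtain ⟨-, -, i, hi, rfl⟩ := hd1 a b d p hd
          omega
      · refine ⟨.ret false, fun v u _ h => absurd h hL, fun _ => trivial,
          by rw [DT.nd_ret]; exact Nat.zero_le _⟩
  choose rT h1 h2 h3 using key
  exact ⟨rT, fun v s t D L u hR hL => h1 s t D L v u hR hL, h2, h3⟩

end Pool.Agent.P0036f5r
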