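import Pool.Agent.Lib.P0036f5r.Defs

/-!
# Branching programs for reachability exist, and they have at least `V - 1` nodes
-/

set_option autoImplicit false

namespace Pool.Agent.P0036f5r

open Relation

/-- the program that reads the whole adjacency matrix, row by row -/
def full (V : ℕ) : BP where
  S := Fin (V * V + 1) × (Fin (V * V) → Bool)
  start := (0, fun _ => false)
  acc := {q | q.1.1 = V * V ∧
    ReflTransGen (fun a b => ∃ k : Fin (V * V), q.2 k = true ∧ k.1 / V = a ∧ k.1 % V = b) 0 1}
  ask := fun q => (q.1.1 / V, q.1.1 % V)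
  next := fun q b =>
    if h : q.1.1 < V * V then (⟨q.1.1 + 1, by omega⟩, Function.update q.2 ⟨q.1.1, h⟩ b) else q

theorem full_iterate (V : ℕ) (G : ℕ → ℕ → Bool) :
    ∀ (j : ℕ) (hj : j ≤ V * V), ((full V).move G)^[j] (full V).start =
      ((⟨j, by omega⟩, fun k => decide (k.1 < j) && G (k.1 / V) (k.1 % V)) :
        Fin (V * V + 1) × (Fin (V * V) → Bool)) := by
  intro j
  induction j with
  | zero =>
    intro hj
    simp only [Function.iterate_zero, id]
    refine Prod.ext rfl (funext fun k => ?_)
    simp [full]
  | succ j ih =>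
    intro hj
    rw [Function.iterate_succ_apply', ih (by omega)]
    have hlt : j < V * V := by omega
    simp only [BP.move, full]
    rw [dif_pos hlt]
    refine Prod.ext rfl (funext fun k => ?_)
    by_cases hk : k = ⟨j, hlt⟩
    · subst hk
      simp
    · have hk' : k.1 ≠ j := fun h => hk (Fin.ext h)
      simp only [Function.update_of_ne hk]
      congr 1
      rw [decide_eq_decide]
      omega

theorem full_decides (V : ℕ) : (full V).Decides V := by
  intro G hG
  have hst := full_iterate V G (V * V) le_rfl
  have hfix : ∀ m : ℕ, ((full V).move G)^[V * V + m] (full V).start =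
      ((full V).move G)^[V * V] (full V).start := by
    intro m
    induction m with
    | zero => rfl
    | succ m ih =>
      rw [← Nat.add_assoc, Function.iterate_succ_apply', ih, hst]
      simp [BP.move, full]
  have hrel : (fun a b => ∃ k : Fin (V * V),
      (decide (k.1 < V * V) && G (k.1 / V) (k.1 % V)) = true ∧ k.1 / V = a ∧ k.1 % V = b) =
      fun a b => G a b = true := by
    funext a b
    refine propext ⟨?_, fun h => ?_⟩
    · rintro ⟨k, hk, rfl, rfl⟩
      rw [Bool.and_eq_true] at hk
      exact hk.2
    · obtain ⟨ha, hb⟩ := hG a b h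
      have hlt : a * V + b < V * V := by nlinarith
      have h1 : (a * V + b) / V = a := by
        rw [Nat.mul_comm, Nat.mul_add_div (by omega), Nat.div_eq_of_lt hb, Nat.add_zero]
      have h2 : (a * V + b) % V = b := by
        rw [Nat.mul_comm, Nat.mul_add_mod, Nat.mod_eq_of_lt hb]
      refine ⟨⟨a * V + b, hlt⟩, ?_, h1, h2⟩
      simp only [h1, h2, h, Bool.and_true, decide_eq_true_eq]
      exact hlt
  have hacc : ((full V).move G)^[V * V] (full V).start ∈ (full V).acc ↔
      ReflTransGen (fun a b => G a b = true) 0 1 := by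
    rw [hst]
    show (V * V = V * V ∧ ReflTransGen (fun a b => ∃ k : Fin (V * V),
      (decide (k.1 < V * V) && G (k.1 / V) (k.1 % V)) = true ∧ k.1 / V = a ∧ k.1 % V = b) 0 1) ↔ _
    rw [hrel]
    exact ⟨fun h => h.2, fun h => ⟨rfl, h⟩⟩
  constructor
  · rintro ⟨j, hj⟩
    rcases le_or_gt j (V * V) with h | h
    · have hj2 := hj
      rw [full_iterate V G j h] at hj2
      have : j = V * V := hj2.1
      rw [this] at hj
      exact hacc.1 hj
    · obtain ⟨m, rfl⟩ := Nat.exists_eq_add_of_lt h
      rw [Nat.add_assoc, hfix] at hj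
      exact hacc.1 hj
  · intro h
    exact ⟨V * V, hacc.2 h⟩

theorem bpSizes_nonempty (V : ℕ) : (bpSizes V).Nonempty :=
  ⟨_, full V, inferInstanceAs (Finite (Fin (V * V + 1) × (Fin (V * V) → Bool))),
    full_decides V, rfl⟩

/-- every edge `0 → v` is queried -/
theorem exists_ask (P : BP) {V : ℕ} (hP : P.Decides V) (v : ℕ) (h1 : 1 ≤ v) (hv : v < V) :
    ∃ x, P.ask x = (0, v) := by
  by_contra hno
  push Not at hno
  let G : ℕ → ℕ → Bool := fun a b => decide ((a = 0 ∧ b = v) ∨ (a = v ∧ b = 1))
  let G' : ℕ → ℕ → Bool := fun a b => decide (a = v ∧ b = 1)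
  have hmove : P.move G = P.move G' := by
    funext x
    have hx := hno x
    have hG : G (P.ask x).1 (P.ask x).2 = G' (P.ask x).1 (P.ask x).2 := by
      simp only [G, G']
      rw [decide_eq_decide]
      constructor
      · rintro (⟨ha, hb⟩ | h)
        · exact absurd (Prod.ext ha hb) hx
        · exact h
      · exact Or.inr
    unfold BP.move
    rw [hG]
  have hA : P.Accepts G ↔ P.Accepts G' := by
    unfold BP.Accepts
    rw [hmove]
  have hGacc : P.Accepts G := by
    refine (hP G ?_).2 ?_
    · intro a b h
      simp only [G, decide_eq_true_eq] at h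
      omega
    · have e1 : G 0 v = true := by simp [G]
      have e2 : G v 1 = true := by simp [G]
      exact ReflTransGen.head (b := v) e1 (ReflTransGen.single e2)
  have hG'acc := hA.1 hGacc
  have hr := (hP G' (by
    intro a b h
    simp only [G', decide_eq_true_eq] at h
    omega)).1 hG'acc
  rcases hr.cases_head with h | ⟨c, hc, _⟩
  · omega
  · simp only [G', decide_eq_true_eq] at hc
    omega

theorem le_of_mem_bpSizes {V K : ℕ} (h : K ∈ bpSizes V) : V ≤ K + 1 := by
  obtain ⟨P, hfin, hP, rfl⟩ := h
  have hex : ∀ i : Fin (V - 1), ∃ x, P.ask x = (0, i.1 + 1) := fun i =>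
    exists_ask P hP _ (by omega) (by omega)
  choose f hf using hex
  have hinj : Function.Injective f := by
    intro i j hij
    have := hf i
    rw [hij, hf j] at this
    have h2 : j.1 + 1 = i.1 + 1 := congrArg Prod.snd this
    exact Fin.ext (by omega)
  have := Nat.card_le_card_of_injective f hinj
  rw [Nat.card_fin] at this
  omega

end Pool.Agent.P0036f5r
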