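import Pool.Agent.Lib.P0036f5r.Block
import Pool.Agent.Lib.P0036f5r.Layer
import Pool.Agent.Lib.P0036f5r.Size
import Pool.Agent.Lib.P0036f5v3.Low

/-!
# The upper bound by branching programs
-/

set_option autoImplicit false

namespace Pool.Agent.P0036f5r

open Classical Pool.Agent.P0036f5v2

/-- the arithmetic of the upper bound -/
theorem size_arith {m N a K : ℕ} (hN : 0 < N) (hx : 2 * N ≤ 2 ^ (m ^ 2 + m + 1)) (ha : a ≤ m)
    (hK : 2 ^ (2 * (m + 3) ^ 2) ≤ K + 1) :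
    (4 * N + 4 * N * (2 * N + 1) * (2 + 2 * N * (N * (1 + K * (K + 1)) +
      N * (1 + N * (K * (K + 1))))) + 1) * (15 * a + 17) + (4 * a + 4) ≤ K ^ 5 := by
  obtain ⟨x, hxdef⟩ : ∃ x, x = 2 ^ (m ^ 2 + m + 1) := ⟨_, rfl⟩
  rw [← hxdef] at hx
  have hV : 2 ^ (2 * (m + 3) ^ 2) = 2 * (x ^ 2 * 2 ^ (10 * m + 15)) := by
    rw [hxdef, ← pow_mul, ← pow_add, ← pow_succ']
    congr 1
    ring
  obtain ⟨A, hA⟩ : ∃ A, A = x ^ 2 * 2 ^ (10 * m + 15) := ⟨_, rfl⟩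
  rw [hV, ← hA] at hK
  have hx2 : 2 ≤ x := by omega
  have hA1 : 1 ≤ A := by
    rw [hA]
    exact Nat.mul_pos (by positivity) (by positivity)
  have hAK : A ≤ K := by omega
  have hK2 : 2 ≤ K := by
    refine le_trans ?_ hAK
    rw [hA]
    have h1 : 2 ^ 1 ≤ 2 ^ (10 * m + 15) := Nat.pow_le_pow_right (by norm_num) (by omega)
    have h2 : 1 ≤ x ^ 2 := Nat.one_le_pow _ _ (by omega)
    nlinarith
  -- the number of trees
  obtain ⟨R, hR⟩ : ∃ R, R = K * (K + 1) := ⟨_, rfl⟩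
  rw [← hR]
  have hR2 : R + 2 ≤ 2 * K ^ 2 := by rw [hR]; nlinarith
  have hT : 2 + 2 * N * (N * (1 + R) + N * (1 + N * R)) ≤ x ^ 3 * (R + 2) := by
    have h1 : N * (1 + R) + N * (1 + N * R) ≤ N * (x * (R + 2)) := by
      have : 1 + R + (1 + N * R) ≤ x * (R + 2) := by
        have h3 : N + 1 ≤ x := by omega
        have h4 : (N + 1) * (R + 2) ≤ x * (R + 2) := Nat.mul_le_mul_right _ h3
        have h5 : (N + 1) * (R + 2) = N * R + 2 * N + R + 2 := by ring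
        omega
      calc N * (1 + R) + N * (1 + N * R) = N * (1 + R + (1 + N * R)) := by ring
        _ ≤ N * (x * (R + 2)) := Nat.mul_le_mul_left _ this
    have h2 : 2 * N * (N * (1 + R) + N * (1 + N * R)) ≤ x * (N * (x * (R + 2))) :=
      Nat.mul_le_mul hx h1
    have h3 : 2 * (x * (N * (x * (R + 2)))) ≤ x ^ 3 * (R + 2) := by
      calc 2 * (x * (N * (x * (R + 2)))) = 2 * N * (x ^ 2 * (R + 2)) := by ring
        _ ≤ x * (x ^ 2 * (R + 2)) := Nat.mul_le_mul_right _ hx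
        _ = x ^ 3 * (R + 2) := by ring
    have h4 : 2 ≤ x * (N * (x * (R + 2))) := by
      have : 1 ≤ N * (x * (R + 2)) := Nat.mul_pos hN (Nat.mul_pos (by omega) (by omega))
      nlinarith
    omega
  obtain ⟨T, hTd⟩ : ∃ T, T = 2 + 2 * N * (N * (1 + R) + N * (1 + N * R)) := ⟨_, rfl⟩
  rw [← hTd] at hT ⊢
  have hT2 : 2 ≤ T := by omega
  have hS : 4 * N + 4 * N * (2 * N + 1) * T + 1 ≤ 6 * (x ^ 2 * T) := by
    have h1 : 2 * N * (2 * N + 1) ≤ x * (2 * x) := Nat.mul_le_mul hx (by omega)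
    have h2 : 4 * N * (2 * N + 1) * T ≤ 4 * (x ^ 2 * T) := by
      calc 4 * N * (2 * N + 1) * T = 2 * (2 * N * (2 * N + 1)) * T := by ring
        _ ≤ 2 * (x * (2 * x)) * T := Nat.mul_le_mul_right _ (Nat.mul_le_mul_left _ h1)
        _ = 4 * (x ^ 2 * T) := by ring
    have h3 : 4 * N + 1 ≤ 2 * (x ^ 2 * T) := by
      have h5 : 2 * x ≤ x ^ 2 := by nlinarith
      have h6 : x ^ 2 * 2 ≤ x ^ 2 * T := Nat.mul_le_mul_left _ hT2
      have h7 : 1 ≤ x ^ 2 := Nat.one_le_pow _ _ (by omega)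
      omega
    omega
  have hx5 : x ^ 2 * T ≤ x ^ 5 * (2 * K ^ 2) := by
    calc x ^ 2 * T ≤ x ^ 2 * (x ^ 3 * (R + 2)) := Nat.mul_le_mul_left _ hT
      _ = x ^ 5 * (R + 2) := by ring
      _ ≤ x ^ 5 * (2 * K ^ 2) := Nat.mul_le_mul_left _ hR2
  have hK3 : x ^ 6 * 2 ^ (30 * m + 45) ≤ K ^ 3 := by
    calc x ^ 6 * 2 ^ (30 * m + 45) = A ^ 3 := by
          rw [hA, mul_pow, ← pow_mul, ← pow_mul]
          congr 2
          ring
      _ ≤ K ^ 3 := Nat.pow_le_pow_left hAK 3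
  have ha2 : a + 1 ≤ 2 ^ (m + 1) := by
    have := Nat.lt_two_pow_self (n := m)
    rw [pow_succ]
    omega
  have hbig : 12 * (21 * 2 ^ (m + 1)) ≤ x * 2 ^ (30 * m + 45) := by
    have h1 : 2 ^ (m + 10) ≤ 2 ^ (30 * m + 45) := Nat.pow_le_pow_right (by norm_num) (by omega)
    have h2 : 12 * (21 * 2 ^ (m + 1)) ≤ 2 ^ (m + 10) := by
      have : 2 ^ (m + 10) = 512 * 2 ^ (m + 1) := by ring
      omega
    calc 12 * (21 * 2 ^ (m + 1)) ≤ 2 ^ (30 * m + 45) := h2.trans h1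
      _ = 1 * 2 ^ (30 * m + 45) := (one_mul _).symm
      _ ≤ x * 2 ^ (30 * m + 45) := Nat.mul_le_mul_right _ (by omega)
  have hSb : 1 ≤ 6 * (x ^ 2 * T) := by omega
  calc (4 * N + 4 * N * (2 * N + 1) * T + 1) * (15 * a + 17) + (4 * a + 4)
      ≤ 6 * (x ^ 2 * T) * (15 * a + 17) + 6 * (x ^ 2 * T) * (4 * a + 4) := by
        refine Nat.add_le_add (Nat.mul_le_mul_right _ hS) ?_
        calc 4 * a + 4 = 1 * (4 * a + 4) := (one_mul _).symm
          _ ≤ 6 * (x ^ 2 * T) * (4 * a + 4) := Nat.mul_le_mul_right _ hSb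
    _ = 6 * (x ^ 2 * T) * (19 * a + 21) := by ring
    _ ≤ 6 * (x ^ 5 * (2 * K ^ 2)) * (21 * 2 ^ (m + 1)) :=
        Nat.mul_le_mul (Nat.mul_le_mul_left _ hx5) (by omega)
    _ = K ^ 2 * (x ^ 5 * (12 * (21 * 2 ^ (m + 1)))) := by ring
    _ ≤ K ^ 2 * (x ^ 5 * (x * 2 ^ (30 * m + 45))) :=
        Nat.mul_le_mul_left _ (Nat.mul_le_mul_left _ hbig)
    _ = K ^ 2 * (x ^ 6 * 2 ^ (30 * m + 45)) := by ring
    _ ≤ K ^ 2 * K ^ 3 := Nat.mul_le_mul_left _ hK3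
    _ = K ^ 5 := by ring

/-- **Upper bound.** Every 1-limited automaton of size at most `n` has an equivalent deterministic
one of size at most `K ^ 5`, if some branching program with `K` nodes decides reachability in the
digraphs with `2 ^ (2 n ^ 2)` vertices. -/
theorem upper_bp {A : Type} [Finite A] (M : LA A) (cv : Bool) (n : ℕ) (hM : M.toMach.size ≤ n)
    {K : ℕ} (hK : K ∈ bpSizes (2 ^ (2 * n ^ 2))) :
    ∃ D : LA A, D.toMach.Det ∧ (∀ cv', D.toMach.lang cv' = M.toMach.lang cv) ∧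
      D.toMach.size ≤ K ^ 5 := by
  have hKV := le_of_mem_bpSizes hK
  obtain ⟨P, fP, hP, hcP⟩ := hK
  have fQ := M.finQ
  have fW := M.finW
  have hsize : Nat.card M.Q + Nat.card A + Nat.card (Sym A M.W) + 1 ≤ n := by
    refine le_trans ?_ hM
    unfold Mach.size
    omega
  rw [card_sym A M.W] at hsize
  set k := Nat.card M.Q with hk
  have hk1 : 0 < k := Nat.card_pos_iff.2 ⟨⟨M.qI⟩, fQ⟩
  obtain ⟨m, hm⟩ : ∃ m, n = m + 3 := ⟨n - 3, by omega⟩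
  -- the states of the table automaton
  have fS : Finite (Set (M.Q × M.Q) × M.Q) := inferInstance
  have hcard : Nat.card (Set (M.Q × M.Q) × M.Q) = 2 ^ (k * k) * k := by
    have := Fintype.ofFinite (M.Q × M.Q)
    rw [Nat.card_prod, Nat.card_eq_fintype_card (α := Set (M.Q × M.Q)), Fintype.card_set,
      ← Nat.card_eq_fintype_card (α := M.Q × M.Q), Nat.card_prod]
  set N := Nat.card (Set (M.Q × M.Q) × M.Q) with hN
  have hN0 : 0 < N := by rw [hcard]; positivity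
  let e : (Set (M.Q × M.Q) × M.Q) ≃ Fin N := Finite.equivFin _
  let st : ℕ → Set (M.Q × M.Q) × M.Q := fun x => if h : x < N then e.symm ⟨x, h⟩ else (∅, M.qI)
  have hst : ∀ s, ∃ x < N, st x = s := by
    intro s
    refine ⟨(e s).1, (e s).2, ?_⟩
    simp [st]
  have hkm : k ≤ m := by omega
  have h1 : k * k ≤ m ^ 2 := by rw [sq]; exact Nat.mul_le_mul hkm hkm
  have h2 : k ≤ 2 ^ m := hkm.trans Nat.lt_two_pow_self.le
  have hp : 2 * N ≤ 2 ^ (m ^ 2 + m + 1) := by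
    rw [hcard]
    calc 2 * (2 ^ (k * k) * k) ≤ 2 * (2 ^ (m ^ 2) * 2 ^ m) := by
          refine Nat.mul_le_mul_left _ (Nat.mul_le_mul ?_ h2)
          exact Nat.pow_le_pow_right (by norm_num) h1
      _ = 2 ^ (m ^ 2 + m + 1) := by ring
  have hV : (2 * N + 1) * N ≤ 2 ^ (2 * n ^ 2) := by
    have h3 : (2 * N + 1) * N ≤ 2 ^ (m ^ 2 + m + 1) * 2 ^ (m ^ 2 + m + 1) := by
      calc (2 * N + 1) * N ≤ (2 * N + 2 * N) * N := Nat.mul_le_mul_right _ (by omega)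
        _ = 2 * N * (2 * N) := by ring
        _ ≤ _ := Nat.mul_le_mul hp hp
    refine h3.trans ?_
    rw [← pow_add]
    refine Nat.pow_le_pow_right (by norm_num) ?_
    rw [hm]
    nlinarith
  obtain ⟨rT, hr1, hr2, hr3⟩ := exists_rT (M.toMach.toNFA cv) P (2 ^ (2 * n ^ 2)) N hP le_rfl hV
  obtain ⟨D, hD, hL, hs⟩ := exists_det_of_tree (M.toMach.toNFA cv) N st hN0 hst rT _ hr1 hr2 hr3
  refine ⟨D, hD, fun cv' => by rw [hL cv', Mach.toNFA_accepts], hs.trans ?_⟩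
  rw [hcP]
  refine size_arith hN0 hp (by omega) ?_
  rw [← hm]
  exact hKV

/-- The final statement. -/
theorem main (cv : Bool) (n : ℕ) (hn : 4 ≤ n) :
    ∃ d K, IsGreatest (costs cv n) d ∧ IsLeast (bpSizes (2 ^ (2 * n ^ 2))) K ∧
      2 ^ ((n / 3000) ^ 2) ≤ d ∧ d ≤ 2 ^ (n ^ 4) ∧ d ≤ K ^ 5 := by
  obtain ⟨d, hd, h1, h2⟩ := P0036f5v3.main cv n hn
  obtain ⟨K, hK, hmin⟩ : ∃ K, IsLeast (bpSizes (2 ^ (2 * n ^ 2))) K := by
    have hne := bpSizes_nonempty (2 ^ (2 * n ^ 2))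
    exact ⟨sInf _, Nat.sInf_mem hne, fun s hs => Nat.sInf_le hs⟩
  refine ⟨d, K, hd, ⟨hK, hmin⟩, h1, h2, ?_⟩
  obtain ⟨A, fA, M, hM, hleast⟩ := hd.1
  obtain ⟨D, hD, hL, hs⟩ := upper_bp M cv n hM hK
  exact (hleast.2 ⟨D, hD, hL cv, rfl⟩).trans hs

end Pool.Agent.P0036f5r
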