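import Pool.Agent.Lib.P0036f5v2.Savitch
import Pool.Agent.Lib.P0036f5r.Defs

/-!
# Unfolding a branching program into a decision tree
-/

set_option autoImplicit false

namespace Pool.Agent.P0036f5r

open Classical Pool.Agent.P0036f5v2

/-- the digraph seen through the decoding `dec` of the queries: `none` = no edge, `some (d, p)` =
the edge is present iff the symbol at distance `d` satisfies `p` -/
def Gof {α : Type} (dec : ℕ → ℕ → Option (ℕ × (α → Bool))) (v : ℕ → α) (a b : ℕ) : Bool :=
  match dec a b with
  | none => false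
  | some (d, p) => p (v d)

/-- An orbit in a finite set that visits `U` does so before the time `card S`. -/
theorem exists_iterate_lt {S : Type} [Finite S] (f : S → S) (x : S) (U : Set S)
    (h : ∃ j : ℕ, f^[j] x ∈ U) : ∃ j < Nat.card S, f^[j] x ∈ U := by
  classical
  have := Fintype.ofFinite S
  refine ⟨Nat.find h, ?_, Nat.find_spec h⟩
  by_contra hlt
  push Not at hlt
  have hcard : Fintype.card S < Fintype.card (Fin (Nat.card S + 1)) := by
    rw [Fintype.card_fin, Nat.card_eq_fintype_card]
    omega
  obtain ⟨a, b, hab, he⟩ :=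
    Fintype.exists_ne_map_eq_of_card_lt (fun i : Fin (Nat.card S + 1) => f^[i.1] x) hcard
  have key : ∀ a b : ℕ, a < b → b ≤ Nat.find h → f^[a] x = f^[b] x → False := by
    intro a b hab hb he
    have h1 : f^[Nat.find h - b + a] x = f^[Nat.find h] x := by
      rw [Function.iterate_add_apply, he, ← Function.iterate_add_apply]
      congr 2
      omega
    have h2 : f^[Nat.find h - b + a] x ∈ U := by
      rw [h1]; exact Nat.find_spec h
    exact Nat.find_min h (by omega) h2
  have hab' : a.1 ≠ b.1 := fun h => hab (Fin.ext h)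
  rcases Nat.lt_or_gt_of_ne hab' with hlt' | hlt'
  · exact key a.1 b.1 hlt' (by omega) he
  · exact key b.1 a.1 hlt' (by omega) he.symm

section

variable (P : BP) {α : Type} (dec : ℕ → ℕ → Option (ℕ × (α → Bool)))

/-- unfolding for `m` steps from the node `x` -/
noncomputable def unf : ℕ → P.S → DT α
  | 0, x => .ret (decide (x ∈ P.acc))
  | m + 1, x =>
      if x ∈ P.acc then .ret true else
        match dec (P.ask x).1 (P.ask x).2 with
        | none => unf m (P.next x false)
        | some (d, p) => .ask d fun a => unf m (P.next x (p a))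

theorem eval_unf (v : ℕ → α) : ∀ (m : ℕ) (x : P.S),
    (unf P dec m x).eval v = true ↔ ∃ j ≤ m, (P.move (Gof dec v))^[j] x ∈ P.acc := by
  intro m
  induction m with
  | zero =>
    intro x
    simp [unf, DT.eval]
  | succ m ih =>
    intro x
    have hstep : ∀ y, P.move (Gof dec v) x = y →
        ((∃ j ≤ m + 1, (P.move (Gof dec v))^[j] x ∈ P.acc) ↔
          x ∈ P.acc ∨ ∃ j ≤ m, (P.move (Gof dec v))^[j] y ∈ P.acc) := by
      intro y hy
      constructor
      · rintro ⟨j, hj, h⟩
        cases j with
        | zero => exact Or.inl h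
        | succ j =>
          rw [Function.iterate_succ_apply, hy] at h
          exact Or.inr ⟨j, by omega, h⟩
      · rintro (h | ⟨j, hj, h⟩)
        · exact ⟨0, by omega, h⟩
        · refine ⟨j + 1, by omega, ?_⟩
          rw [Function.iterate_succ_apply, hy]
          exact h
    rw [unf]
    by_cases hx : x ∈ P.acc
    · rw [if_pos hx]
      simp only [DT.eval, true_iff]
      exact ⟨0, by omega, hx⟩
    · rw [if_neg hx]
      have hmv : P.move (Gof dec v) x = P.next x (Gof dec v (P.ask x).1 (P.ask x).2) := rfl
      rw [hstep _ hmv]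
      simp only [hx, false_or]
      cases h : dec (P.ask x).1 (P.ask x).2 with
      | none =>
        have hG : Gof dec v (P.ask x).1 (P.ask x).2 = false := by simp [Gof, h]
        rw [hG]
        exact ih _
      | some q =>
        obtain ⟨d, p⟩ := q
        have hG : Gof dec v (P.ask x).1 (P.ask x).2 = p (v d) := by simp [Gof, h]
        rw [hG]
        exact ih _

theorem within_unf {n : ℕ} (h : ∀ a b d p, dec a b = some (d, p) → 1 ≤ d ∧ d ≤ n) :
    ∀ (m : ℕ) (x : P.S), (unf P dec m x).Within n := by
  intro m
  induction m with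
  | zero => intro x; trivial
  | succ m ih =>
    intro x
    rw [unf]
    split_ifs with hx
    · trivial
    · split
      · exact ih _
      · next d p hd =>
        obtain ⟨h1, h2⟩ := h _ _ _ _ hd
        exact ⟨h1, h2, fun a => ih _⟩

theorem asks_unf_subset : ∀ (m : ℕ) (x : P.S),
    (unf P dec m x).asks ⊆
      (fun q : ℕ × P.S => unf P dec q.1 q.2) '' (Set.Iic m ×ˢ Set.univ) := by
  intro m
  induction m with
  | zero =>
    intro x
    simp [unf, DT.asks]
  | succ m ih =>
    intro x
    have hmono : (fun q : ℕ × P.S => unf P dec q.1 q.2) '' (Set.Iic m ×ˢ Set.univ) ⊆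
        (fun q : ℕ × P.S => unf P dec q.1 q.2) '' (Set.Iic (m + 1) ×ˢ Set.univ) := by
      refine Set.image_mono (Set.prod_mono ?_ subset_rfl)
      exact Set.Iic_subset_Iic.2 (by omega)
    have hself : unf P dec (m + 1) x ∈
        (fun q : ℕ × P.S => unf P dec q.1 q.2) '' (Set.Iic (m + 1) ×ˢ Set.univ) :=
      ⟨(m + 1, x), ⟨Set.mem_Iic.2 le_rfl, trivial⟩, rfl⟩
    rw [unf] at hself ⊢
    split_ifs at hself ⊢ with hx
    · simp [DT.asks]
    · revert hself
      cases h : dec (P.ask x).1 (P.ask x).2 with
      | none => exact fun _ => (ih _).trans hmono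
      | some q =>
        obtain ⟨d, p⟩ := q
        exact fun hself => Set.insert_subset hself (Set.iUnion_subset fun a => (ih _).trans hmono)

end

/-- Every branching program with `K` nodes gives a decision tree with at most `K * (K + 1)` inner
subtrees. -/
theorem exists_tree (P : BP) [Finite P.S] {α : Type} [Finite α]
    (dec : ℕ → ℕ → Option (ℕ × (α → Bool))) :
    ∃ T : DT α, (∀ v : ℕ → α, T.eval v = true ↔ P.Accepts (Gof dec v)) ∧
      (∀ n, (∀ a b d p, dec a b = some (d, p) → 1 ≤ d ∧ d ≤ n) → T.Within n) ∧
      T.nd ≤ Nat.card P.S * (Nat.card P.S + 1) := by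
  refine ⟨unf P dec (Nat.card P.S) P.start, fun v => ?_, fun n h => within_unf P dec h _ _, ?_⟩
  · rw [eval_unf]
    constructor
    · rintro ⟨j, _, h⟩
      exact ⟨j, h⟩
    · intro h
      obtain ⟨j, hj, h'⟩ := exists_iterate_lt _ _ _ h
      exact ⟨j, hj.le, h'⟩
  · have hfin : ((Set.Iic (Nat.card P.S) : Set ℕ) ×ˢ (Set.univ : Set P.S)).Finite :=
      (Set.finite_Iic _).prod Set.finite_univ
    refine (Set.ncard_le_ncard (asks_unf_subset P dec _ _) (hfin.image _)).trans ?_
    refine (Set.ncard_image_le hfin).trans ?_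
    rw [Set.ncard_prod, Set.ncard_univ, Set.ncard_eq_toFinset_card' (Set.Iic _)]
    simp [Nat.mul_comm]

end Pool.Agent.P0036f5r
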